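import Mathlib
import Pool.Agent.H852.ND.IndFinal
import Pool.Agent.H852.QP.Gen

set_option autoImplicit false

/-!
# Non-speciality for arbitrary multiplicities small compared with the degree

Let `B ≥ 2` be an integer. For every number `h` of general points of the complex projective plane
and all multiplicities with `m i + 3 ≤ d / B ^ 4`, the linear system of plane curves of degree `d`
with these multiplicities is non-special if `∑ (m i) ^ 2 > (1 + 8 / B) ^ 2 d ^ 2` (it is then empty)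
or if `∑ (m i + 3) ^ 2 ≤ (1 - 7 / B ^ 2) d ^ 2` (the conditions are then independent).

The points are `(1 : P i 0 : P i 1)`.
-/

namespace Pool.Agent.Results.MP_6b2d39_ag.AllMultiplicitiesWindow

open MvPolynomial

/-- The forms of degree `d` vanishing to order at least `m i` at `(1 : P i 0 : P i 1)`. -/
noncomputable def forms {h : ℕ} (d : ℕ) (m : Fin h → ℕ) (P : Fin h → Fin 2 → ℂ) :
    Submodule ℂ (MvPolynomial (Fin 3) ℂ) :=
  MvPolynomial.homogeneousSubmodule (Fin 3) ℂ d ⊓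
    Submodule.restrictScalars ℂ
      (⨅ i : Fin h, (Ideal.span {X 1 - C (P i 0) * X 0, X 2 - C (P i 1) * X 0} :
        Ideal (MvPolynomial (Fin 3) ℂ)) ^ (m i))

theorem result (B : ℕ) (hB : 2 ≤ B) (h : ℕ) (m : Fin h → ℕ) (d : ℕ) (hd : 0 < d)
    (hm : ∀ i, (m i + 3) * B ^ 4 ≤ d) :
    ∃ F : MvPolynomial (Fin h × Fin 2) ℂ, F ≠ 0 ∧
      ∀ P : Fin h → Fin 2 → ℂ,
        MvPolynomial.eval (fun ij : Fin h × Fin 2 => P ij.1 ij.2) F ≠ 0 →
        ((1 + 8 / (B : ℝ)) ^ 2 * (d : ℝ) ^ 2 < ∑ i, (m i : ℝ) ^ 2 →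
          forms d m P = ⊥ ∧ (d + 2).choose 2 ≤ ∑ i, (m i + 1).choose 2) ∧
        (∑ i, ((m i : ℝ) + 3) ^ 2 ≤ (1 - 7 / (B : ℝ) ^ 2) * (d : ℝ) ^ 2 →
          Module.finrank ℂ ↥(forms d m P) + ∑ i, (m i + 1).choose 2 = (d + 2).choose 2) := by
  have hBR : (2 : ℝ) ≤ B := by exact_mod_cast hB
  have hB0 : (0 : ℝ) < B := by linarith
  have hdR : (0 : ℝ) < d := by exact_mod_cast hd
  have hmR : ∀ i, (m i : ℝ) + 3 ≤ 1 / (B : ℝ) ^ 4 * d := by
    intro i
    rw [one_div_mul_eq_div, le_div_iff₀ (by positivity)]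
    exact_mod_cast hm i
  have hforms : ∀ P : Fin h → Fin 2 → ℂ, forms d m P = H932R5.Vd (E := 1) d m P := by
    intro P
    rw [H852.QP.Vd_plane]
    rfl
  obtain ⟨x, hx⟩ : ∃ x : ℝ, x = 1 / (B : ℝ) := ⟨_, rfl⟩
  have hx0 : 0 < x := by rw [hx]; positivity
  have hx2 : x ≤ 1 / 2 := by
    rw [hx]
    exact one_div_le_one_div_of_le (by norm_num) hBR
  have hBx : (B : ℝ) * x = 1 := by rw [hx]; field_simp
  have e8 : 8 / (B : ℝ) = 8 * x := by rw [hx]; ring
  have e7 : 7 / (B : ℝ) ^ 2 = 7 * x ^ 2 := by rw [hx]; field_simp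
  have e4 : 1 / (B : ℝ) ^ 4 = x ^ 4 := by rw [hx]; field_simp
  rw [e8, e7]
  rw [e4] at hmR
  -- the first polynomial
  obtain ⟨F1, hF1, hF1'⟩ : ∃ F : MvPolynomial (Fin h × Fin 2) ℂ, F ≠ 0 ∧
      ∀ P : Fin h → Fin 2 → ℂ,
        MvPolynomial.eval (fun ij : Fin h × Fin 2 => P ij.1 ij.2) F ≠ 0 →
        (1 + 8 * x) ^ 2 * (d : ℝ) ^ 2 < ∑ i, (m i : ℝ) ^ 2 →
          H932R5.EmptyAt (E := 1) m P d := by
    by_cases hS : (1 + 8 * x) ^ 2 * (d : ℝ) ^ 2 < ∑ i, (m i : ℝ) ^ 2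
    · have hc : H852.ND.cst 1 B (x ^ 4) ≤ 1 + 8 * x := by
        unfold H852.ND.cst
        have h1 : (1 + 1 / (B : ℝ) + B * x ^ 4) ^ 1 + 6 * (B : ℝ) ^ (1 + 2) * (x ^ 4) ^ 1 =
            1 + x + (B * x) * x ^ 3 + 6 * (B * x) ^ 3 * x := by
          rw [hx]
          ring
        rw [h1, hBx]
        have h2 : x ^ 3 ≤ x := by
          calc x ^ 3 ≤ x ^ 1 := pow_le_pow_of_le_one hx0.le (by linarith) (by norm_num)
            _ = x := pow_one x
        nlinarith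
      have hc0 : 0 ≤ H852.ND.cst 1 B (x ^ 4) := by
        unfold H852.ND.cst
        positivity
      obtain ⟨y, hy⟩ := H852.ND.round_empty (K := ℂ) (E := 1) hB le_rfl (n := h) (m := m) (d := d)
        (σ := x ^ 4) (by positivity) (fun i => by
          have := hmR i
          linarith) (by
          refine lt_of_le_of_lt ?_ hS
          rw [mul_pow]
          exact mul_le_mul_of_nonneg_right (pow_le_pow_left₀ hc0 hc 2) (by positivity))
      obtain ⟨F, hF, hF'⟩ := H932R5.open_of_full (K := ℂ) (E := 1) (w := m) (d := d) ⟨y, hy⟩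
      exact ⟨F, hF, fun P hP _ => hF' P hP⟩
    · exact ⟨1, one_ne_zero, fun P _ h0 => absurd h0 hS⟩
  -- the second polynomial
  obtain ⟨F2, hF2, hF2'⟩ : ∃ F : MvPolynomial (Fin h × Fin 2) ℂ, F ≠ 0 ∧
      ∀ P : Fin h → Fin 2 → ℂ,
        MvPolynomial.eval (fun ij : Fin h × Fin 2 => P ij.1 ij.2) F ≠ 0 →
        ∑ i, ((m i : ℝ) + 3) ^ 2 ≤ (1 - 7 * x ^ 2) * (d : ℝ) ^ 2 →
          H932R5.SurjAt (E := 1) m P d := by
    by_cases hS : ∑ i, ((m i : ℝ) + 3) ^ 2 ≤ (1 - 7 * x ^ 2) * (d : ℝ) ^ 2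
    · have hB2 : 2 ≤ B ^ 2 := by nlinarith
      have hcast : ((B ^ 2 : ℕ) : ℝ) = (B : ℝ) ^ 2 := by push_cast; rfl
      have e3 : ((2 : ℝ) * ((1 : ℕ) : ℝ) + 1) = 3 := by norm_num
      obtain ⟨z, hz⟩ : ∃ z : ℝ, z = x ^ 2 := ⟨_, rfl⟩
      have hz0 : 0 < z := by rw [hz]; positivity
      have hz4 : z ≤ 1 / 4 := by
        rw [hz]
        nlinarith
      have hBz : (B : ℝ) ^ 2 * z = 1 := by
        rw [hz, ← mul_pow, hBx, one_pow]
      have hBz' : 1 / (B : ℝ) ^ 2 = z := by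
        rw [div_eq_iff (by positivity), mul_comm]
        exact hBz.symm
      have hx4 : x ^ 4 = z ^ 2 := by rw [hz]; ring
      obtain ⟨y, hy⟩ := H852.ND.round_surj (K := ℂ) (E := 1) hB2 (n := h) (m := m) (d := d) hd
        (σ := x ^ 4) (by positivity) (by
          rw [hcast, hx4]
          have : z ^ 2 * (B : ℝ) ^ 2 = z * ((B : ℝ) ^ 2 * z) := by ring
          rw [this, hBz]
          linarith) (fun i => by
          rw [e3]
          exact hmR i) (by
          rw [e3, hcast, hx4, hBz']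
          obtain ⟨b, hb⟩ : ∃ b : ℝ, b = (B : ℝ) ^ 2 := ⟨_, rfl⟩
          rw [← hb] at hBz ⊢
          obtain ⟨D, hD⟩ : ∃ D : ℝ, D = (d : ℝ) ^ 2 := ⟨_, rfl⟩
          have hD0 : 0 < D := by rw [hD]; positivity
          obtain ⟨Sg, hSg⟩ : ∃ Sg : ℝ, Sg = ∑ i, ((m i : ℝ) + 3) ^ 2 := ⟨_, rfl⟩
          rw [← hz, ← hD, ← hSg] at hS
          have h1 : (1 - z ^ 2 * b) = 1 - z := by
            have : z ^ 2 * b = z * (b * z) := by ring
            rw [this, hBz, mul_one]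
          have h2 : (2 * b + 1) * (b ^ (1 + 1) + 2) * (z ^ 2 * (d : ℝ)) ^ (1 + 1) =
              (2 * (b * z) + z) * ((b * z) ^ 2 + 2 * z ^ 2) * z * D := by
            rw [hD]
            ring
          have h3 : ∑ i, ((m i : ℝ) + 3) ^ (1 + 1) = Sg := by rw [hSg]
          rw [h1, h2, h3, hBz]
          have h4 : ((1 - z) * (d : ℝ)) ^ (1 + 1) = (1 - z) ^ 2 * D := by
            rw [hD]
            ring
          rw [h4]
          have h5 : (1 + z) ^ (1 + 1) * Sg ≤ (1 + z) ^ 2 * ((1 - 7 * z) * D) :=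
            mul_le_mul_of_nonneg_left hS (by positivity)
          have h6 : (1 + z) ^ 2 * (1 - 7 * z) + (2 * 1 + z) * (1 ^ 2 + 2 * z ^ 2) * z ≤
              (1 - z) ^ 2 := by
            nlinarith [mul_nonneg hz0.le hz0.le, mul_nonneg (mul_nonneg hz0.le hz0.le) hz0.le,
              mul_nonneg hz0.le (sub_nonneg.2 hz4), mul_nonneg (mul_nonneg hz0.le hz0.le)
              (sub_nonneg.2 hz4), mul_nonneg (mul_nonneg (mul_nonneg hz0.le hz0.le) hz0.le)
              (sub_nonneg.2 hz4)]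
          have h7 := mul_le_mul_of_nonneg_right h6 hD0.le
          nlinarith)
      obtain ⟨F, hF, hF'⟩ := H852.ND.surj_open hy
      exact ⟨F, hF, fun P hP _ => hF' P hP⟩
    · exact ⟨1, one_ne_zero, fun P _ h0 => absurd h0 hS⟩
  refine ⟨F1 * F2, mul_ne_zero hF1 hF2, fun P hP => ?_⟩
  rw [map_mul] at hP
  have hP1 := left_ne_zero_of_mul hP
  have hP2 := right_ne_zero_of_mul hP
  constructor
  · intro hS
    have h1 := hF1' P hP1 hS
    have h2 := H932R5.finrank_ge (E := 1) d m P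
    rw [h1.finrank, add_zero] at h2
    exact ⟨by rw [hforms P]; exact h1.bot, h2⟩
  · intro hS
    have h1 := (hF2' P hP2 hS).finrank
    rw [hforms P, add_comm]
    exact h1

end Pool.Agent.Results.MP_6b2d39_ag.AllMultiplicitiesWindow
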